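import Pool.Agent.R902.Cat27Sum

/-!
Sums of products of Catalan numbers and second order Catalan numbers.
-/

namespace Pool.Agent.Results.MP_77f5f4_nt.CatalanProducts

open Finset Pool.Agent.R902.Cat27Sum

/-- the Catalan number `C(2k,k)/(k+1)` -/
def C (k : ℕ) : ℚ := ((2 * k).choose k : ℚ) / ((k : ℚ) + 1)

/-- the second order Catalan number of the first kind, `C(3k,k)/(2k+1)` -/
def C2 (k : ℕ) : ℚ := ((3 * k).choose k : ℚ) / (2 * (k : ℚ) + 1)

/-- the second order Catalan number of the second kind, `2 C(3k,k)/(k+1)` -/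
def C2bar (k : ℕ) : ℚ := 2 * ((3 * k).choose k : ℚ) / ((k : ℚ) + 1)

theorem result (p : ℕ) (hp : p.Prime) (h3 : 3 < p) :
    ((p : ℤ) ^ 2 ∣ ((∑ k ∈ range p, C k * C2 k / 27 ^ k) -
      (2 * (if p % 3 = 1 then 1 else -1) - (p : ℚ))).num) ∧
    ((p : ℤ) ∣ ((∑ k ∈ range p, C k * C2bar k / 27 ^ k) + 7).num) := by
  have : Fact p.Prime := ⟨hp⟩
  have h5 : 5 ≤ p := by
    rcases Nat.lt_or_ge p 5 with h | h
    · obtain rfl : p = 4 := by omega
      exact absurd hp (by norm_num)
    · exact h
  have hc3 : p.Coprime 3 := by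
    rw [Nat.Prime.coprime_iff_not_dvd hp]
    intro h
    have := Nat.le_of_dvd (by norm_num) h
    omega
  constructor
  · have hA := sum_X p h5
    have hB := sum_Y' p h5
    refine num_dvd p 2 _ (27 ^ (p - 1)) _ ?_ ((hA.mul_left 2).sub hB) ?_
    · rw [sub_mul, Finset.sum_mul]
      have h1 : ∀ k ∈ range p, C k * C2 k / 27 ^ k * ((27 ^ (p - 1) : ℕ) : ℚ)
          = 2 * ((((2 * k).choose k * D k * 27 ^ (p - 1 - k) : ℕ) : ℤ) : ℚ)
            - ((((Ca k * (3 * k).choose k * 27 ^ (p - 1 - k) : ℕ) : ℤ)) : ℚ) := by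
        intro k hk
        have hk := Finset.mem_range.1 hk
        have e1 : ((k : ℚ) + 1) * Ca k = (2 * k).choose k := by exact_mod_cast Ca_mul k
        have e2 : (2 * (k : ℚ) + 1) * D k = (3 * k).choose k := by exact_mod_cast D_mul k
        have e3 : C k = Ca k := by
          rw [C, ← e1]
          have : ((k : ℚ) + 1) ≠ 0 := by positivity
          field_simp
        have e4 : C2 k = D k := by
          rw [C2, ← e2]
          have : (2 * (k : ℚ) + 1) ≠ 0 := by positivity
          field_simp
        have e5 : ((27 ^ (p - 1) : ℕ) : ℚ) = 27 ^ k * 27 ^ (p - 1 - k) := by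
          rw [Nat.cast_pow, ← pow_add]
          congr 1
          omega
        rw [e3, e4, e5]
        push_cast
        rw [← e1, ← e2]
        field_simp
        ring
      rw [Finset.sum_congr rfl h1, Finset.sum_sub_distrib, ← Finset.mul_sum]
      push_cast
      split_ifs <;> ring
    · exact Nat.Coprime.pow_right _ (by
        rw [show 27 = 3 ^ 3 by norm_num]
        exact Nat.Coprime.pow_right _ hc3)
  · have h1 : ∑ k ∈ range p, C k * C2bar k / 27 ^ k
        = -9 + (9 + 81 * (p : ℚ) / 2) * (T p / 27 ^ p) := by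
      rw [← sum_Z p]
      rfl
    rw [h1]
    have h2 := num_dvd p 1 (-9 + (9 + 81 * (p : ℚ) / 2) * (T p / 27 ^ p) + 7) (2 * 27 ^ p)
      (-4 * 27 ^ p + (18 + 81 * p) * T p) (by push_cast; field_simp; ring) (by
        rw [pow_one, ← ZMod.intCast_zmod_eq_zero_iff_dvd]
        push_cast
        rw [T_mod p, ZMod.pow_card, ZMod.natCast_self]
        norm_num) (by
        apply Nat.Coprime.mul_right
        · rw [Nat.Prime.coprime_iff_not_dvd hp]
          intro h
          have := Nat.le_of_dvd (by norm_num) h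
          omega
        · exact Nat.Coprime.pow_right _ (by
            rw [show 27 = 3 ^ 3 by norm_num]
            exact Nat.Coprime.pow_right _ hc3))
    rw [pow_one] at h2
    exact h2

end Pool.Agent.Results.MP_77f5f4_nt.CatalanProducts
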